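import Pool.Agent.W251.GX.Defs
import Pool.Agent.W803.GA.Pair

set_option autoImplicit false

/-! Project GX, part BETW (port of W347/GS/Pair to an arbitrary function). -/

namespace Pool.Agent.W414.GX

open Finset Filter
open Pool.Agent.W78.GA hiding GG PE sedge S_DEC S_MOM0 S_MOMP S_MOM S_CELLE S_MR S_PAIR S_U0 S_SC S_BETW
open Pool.Agent.W803.GA (exists_dt_one prim_of_dt plucker)
open Pool.Agent.W251.GX (S_BETW)

variable {t c : ℤ}

theorem betw (hD : t ^ 2 < 4 * c) : S_BETW t c := by
  classical
  intro α φ X
  -- the primitive vectors strictly inside the cone
  set I : Qd t c → Qd t c → Finset (Qd t c) :=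
    fun z z' => (pball t c X).filter (fun v => 0 < dt z v ∧ 0 < dt v z') with hI
  have key : ∀ N : ℕ, ∀ z z' : Qd t c, (I z z').card ≤ N → z ∈ pball t c X → z' ∈ pball t c X →
      0 < dt z z' → φ z ≠ φ z' →
      ∃ e ∈ edge t c X, φ e.1 ≠ φ e.2 ∧ 0 ≤ dt z e.1 ∧ 0 < dt z e.2 ∧ 0 < dt e.1 z' ∧ 0 ≤ dt e.2 z' := by
    intro N
    induction N with
    | zero =>
      intro z z' hN hz hz' hd hl
      have hempty : I z z' = ∅ := Finset.card_eq_zero.1 (Nat.le_zero.1 hN)
      have hno : ∀ v ∈ pball t c X, 0 < dt z v → dt v z' ≤ 0 := by
        intro v hv h1
        by_contra h2
        push Not at h2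
        have : v ∈ I z z' := mem_filter.2 ⟨hv, h1, h2⟩
        rw [hempty] at this
        exact absurd this (Finset.notMem_empty _)
      have hzp := ((mem_pball hD).1 hz).1
      have hzp' := ((mem_pball hD).1 hz').1
      -- the determinant is one
      have hd1 : dt z z' = 1 := by
        by_contra hne
        have hm : 2 ≤ dt z z' := by omega
        set m := dt z z' with hmdef
        obtain ⟨u0, hu0⟩ := exists_dt_one hzp
        -- z' = a z + m u0
        have hzz : ∃ a : ℤ, z' = (a : Qd t c) * z + (m : Qd t c) * u0 := by
          have h1 : dt z (z' - (m : Qd t c) * u0) = 0 := by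
            have : dt z (z' - (m : Qd t c) * u0) = dt z z' - m * dt z u0 := by
              unfold dt; simp; ring
            rw [this, hu0, ← hmdef]; ring
          -- multiple of z
          set q := z' - (m : Qd t c) * u0 with hq
          unfold dt at hu0 h1
          set a := q.re * u0.im - q.im * u0.re with ha
          refine ⟨a, ?_⟩
          have e1 : q.re = a * z.re := by rw [ha]; linear_combination (-q.re) * hu0 + u0.re * h1
          have e2 : q.im = a * z.im := by rw [ha]; linear_combination (-q.im) * hu0 + u0.im * h1
          have : q = (a : Qd t c) * z := by
            apply QuadraticAlgebra.ext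
            · simp [e1]
            · simp [e2]
          rw [← this, hq]; ring
        obtain ⟨a, ha⟩ := hzz
        -- reduce modulo m
        set b := (-a) % m with hb
        have hmpos : 0 < m := by omega
        have hb0 : 0 ≤ b := Int.emod_nonneg _ hmpos.ne'
        have hbm : b < m := Int.emod_lt_of_pos _ hmpos
        obtain ⟨τ, hτ⟩ : ∃ τ : ℤ, -a = b + m * τ := ⟨(-a) / m, (Int.emod_add_mul_ediv _ _).symm⟩
        -- m u = b z + z'
        set u := u0 - (τ : Qd t c) * z with hu
        have hmu : (m : Qd t c) * u = (b : Qd t c) * z + z' := by
          rw [hu, ha]
          have : (a : Qd t c) = -((b : Qd t c) + (m : Qd t c) * (τ : Qd t c)) := by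
            have : a = -(b + m * τ) := by linarith
            rw [this]; push_cast; ring
          rw [this]; ring
        have hdu : dt z u = 1 := by
          have : dt z u = dt z u0 := by rw [hu]; unfold dt; simp; ring
          rw [this, hu0]
        have hup : prim u := prim_of_dt hdu
        have hduz : dt u z' = b := by
          have h1 : m * dt u z' = b * dt z z' := by
            have : m * dt u z' = dt ((m : Qd t c) * u) z' := by unfold dt; simp; ring
            rw [this, hmu]
            unfold dt; simp; ring
          rw [← hmdef] at h1
          have : m * dt u z' = m * b := by linarith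
          exact mul_left_cancel₀ hmpos.ne' this
        have hbpos : 0 < b := by
          rcases hb0.lt_or_eq with h | h
          · exact h
          · exfalso
            rw [← h] at hmu
            simp only [Int.cast_zero, zero_mul, zero_add] at hmu
            unfold prim at hzp'
            have e1 : z'.re = m * u.re := by rw [← hmu]; simp
            have e2 : z'.im = m * u.im := by rw [← hmu]; simp
            rw [e1, e2, Int.gcd_mul_left] at hzp'
            have : m.natAbs = 1 := Nat.eq_one_of_mul_eq_one_right hzp'
            omega
        -- the norm of u
        have hnu : (nm u : ℝ) ≤ X := by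
          have h1 : (m : ℝ) ^ 2 * nm u = b ^ 2 * nm z + b * (2 * ip z z' + t * dt z z') + nm z' := by
            have h2 : m ^ 2 * (nm u : ℤ) = b ^ 2 * nm z + b * (2 * ip z z' + t * dt z z') + nm z' := by
              have e1 : m * u.re = b * z.re + z'.re := by
                have := congrArg QuadraticAlgebra.re hmu
                simpa using this
              have e2 : m * u.im = b * z.im + z'.im := by
                have := congrArg QuadraticAlgebra.im hmu
                simpa using this
              rw [nm_cast hD, nm_cast hD, nm_cast hD]
              unfold ip dt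
              have e3 : m ^ 2 * (u.re ^ 2 + t * u.re * u.im + c * u.im ^ 2) =
                  (m * u.re) ^ 2 + t * (m * u.re) * (m * u.im) + c * (m * u.im) ^ 2 := by ring
              rw [e3, e1, e2]
              ring
            exact_mod_cast h2
          have hzX := ((mem_pball hD).1 hz).2
          have hzX' := ((mem_pball hD).1 hz').2
          have hip : (2 * ip z z' + t * dt z z' : ℝ) ≤ 2 * X := by
            have h2 := ip_dt hD z z'
            have h3 : (2 * ip z z' + t * dt z z' : ℝ) ^ 2 ≤ 4 * (nm z * nm z') := by
              have : (2 * ip z z' + t * dt z z' : ℤ) ^ 2 ≤ 4 * (nm z * nm z') := by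
                rw [h2]
                nlinarith [mul_nonneg (by linarith : 0 ≤ 4 * c - t ^ 2) (sq_nonneg (dt z z'))]
              exact_mod_cast this
            have h4 : (0 : ℝ) ≤ nm z := Nat.cast_nonneg _
            have h5 : (0 : ℝ) ≤ nm z' := Nat.cast_nonneg _
            have hX0 : 0 ≤ X := h4.trans hzX
            have h6 : (2 * ip z z' + t * dt z z' : ℝ) ^ 2 ≤ (2 * X) ^ 2 := by
              calc _ ≤ 4 * ((nm z : ℝ) * nm z') := h3
                _ ≤ 4 * (X * X) := by
                    have := mul_le_mul hzX hzX' h5 hX0
                    linarith
                _ = (2 * X) ^ 2 := by ring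
            exact abs_le_of_sq_le_sq' h6 (by positivity) |>.2
          have hX0 : 0 ≤ X := (Nat.cast_nonneg _).trans hzX
          have hbR : (0 : ℝ) < b := by exact_mod_cast hbpos
          have hbm' : (b : ℝ) + 1 ≤ m := by exact_mod_cast hbm
          have hmR : (0 : ℝ) < m := by exact_mod_cast hmpos
          have h2 : (m : ℝ) ^ 2 * nm u ≤ m ^ 2 * X := by
            rw [h1]
            calc (b : ℝ) ^ 2 * nm z + b * (2 * ip z z' + t * dt z z') + nm z' ≤
                b ^ 2 * X + b * (2 * X) + X := by
                  have e1 := mul_le_mul_of_nonneg_left hzX (sq_nonneg (b : ℝ))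
                  have e2 := mul_le_mul_of_nonneg_left hip (by positivity : (0 : ℝ) ≤ b)
                  linarith
              _ = (b + 1) ^ 2 * X := by ring
              _ ≤ m ^ 2 * X := by
                  apply mul_le_mul_of_nonneg_right _ hX0
                  exact pow_le_pow_left₀ (by positivity) hbm' 2
          exact le_of_mul_le_mul_left h2 (by positivity)
        have hu_mem : u ∈ pball t c X := (mem_pball hD).2 ⟨hup, hnu⟩
        have := hno u hu_mem (by rw [hdu]; norm_num)
        rw [hduz] at this
        omega
      -- the sum is large
      have hsum : X < (nm (z + z') : ℝ) := by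
        by_contra hle
        push Not at hle
        have e1 : dt z (z + z') = 1 := by
          have : dt z (z + z') = dt z z' := by unfold dt; simp; ring
          rw [this, hd1]
        have e2 : dt (z + z') z' = 1 := by
          have : dt (z + z') z' = dt z z' := by unfold dt; simp; ring
          rw [this, hd1]
        have := hno (z + z') ((mem_pball hD).2 ⟨prim_of_dt e1, hle⟩) (by rw [e1]; norm_num)
        rw [e2] at this
        norm_num at this
      refine ⟨(z, z'), ?_, hl, ?_, ?_, ?_, ?_⟩
      · unfold edge
        rw [mem_filter, mem_product]
        exact ⟨⟨hz, hz'⟩, hd1, hsum⟩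
      · simp only [dt]; nlinarith
      · exact hd
      · exact hd
      · simp only [dt]; nlinarith
    | succ N ih =>
      intro z z' hN hz hz' hd hl
      by_cases hcard : (I z z').card ≤ N
      · exact ih z z' hcard hz hz' hd hl
      · have hne : (I z z').Nonempty := by
          rw [← Finset.card_pos]; omega
        obtain ⟨v, hv⟩ := hne
        obtain ⟨hvX, hv1, hv2⟩ := mem_filter.1 hv
        by_cases hlv : φ z = φ v
        · -- recursion on (v, z')
          have hsub : I v z' ⊆ (I z z').erase v := by
            intro u hu
            obtain ⟨h1, h2, h3⟩ := mem_filter.1 hu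
            rw [mem_erase]
            constructor
            · rintro rfl
              simp only [dt] at h2
              nlinarith
            · refine mem_filter.2 ⟨h1, ?_, h3⟩
              have hp := plucker z u v z'
              -- dt z u * dt v z' = dt z v * dt u z' + dt z z' * dt v u
              have h4 : 0 < dt z v * dt u z' + dt z z' * dt v u := by positivity
              rw [← hp] at h4
              exact (mul_pos_iff_of_pos_right hv2).1 h4
          have hc : (I v z').card ≤ N := by
            have h1 := Finset.card_le_card hsub
            rw [Finset.card_erase_of_mem hv] at h1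
            omega
          obtain ⟨e, he, hne', h1, h2, h3, h4⟩ := ih v z' hc hvX hz' hv2 (by rw [← hlv]; exact hl)
          refine ⟨e, he, hne', ?_, ?_, h3, h4⟩
          · -- 0 ≤ dt z e.1
            have hp := plucker z e.1 v z'
            have h5 : 0 ≤ dt z v * dt e.1 z' + dt z z' * dt v e.1 := by positivity
            rw [← hp] at h5
            exact nonneg_of_mul_nonneg_left h5 hv2
          · have hp := plucker z e.2 v z'
            have h5 : 0 < dt z v * dt e.2 z' + dt z z' * dt v e.2 := by positivity
            rw [← hp] at h5
            exact (mul_pos_iff_of_pos_right hv2).1 h5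
        · have hsub : I z v ⊆ (I z z').erase v := by
            intro u hu
            obtain ⟨h1, h2, h3⟩ := mem_filter.1 hu
            rw [mem_erase]
            constructor
            · rintro rfl
              simp only [dt] at h3
              nlinarith
            · refine mem_filter.2 ⟨h1, h2, ?_⟩
              have hp := plucker z v u z'
              -- dt z v * dt u z' = dt z u * dt v z' + dt z z' * dt u v
              have h4 : 0 < dt z u * dt v z' + dt z z' * dt u v := by positivity
              rw [← hp] at h4
              exact (mul_pos_iff_of_pos_left hv1).1 h4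
          have hc : (I z v).card ≤ N := by
            have h1 := Finset.card_le_card hsub
            rw [Finset.card_erase_of_mem hv] at h1
            omega
          obtain ⟨e, he, hne', h1, h2, h3, h4⟩ := ih z v hc hz hvX hv1 hlv
          refine ⟨e, he, hne', h1, h2, ?_, ?_⟩
          · have hp := plucker z v e.1 z'
            have h5 : 0 < dt z e.1 * dt v z' + dt z z' * dt e.1 v := by positivity
            rw [← hp] at h5
            exact (mul_pos_iff_of_pos_left hv1).1 h5
          · have hp := plucker z v e.2 z'
            have h5 : 0 ≤ dt z e.2 * dt v z' + dt z z' * dt e.2 v := by positivity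
            rw [← hp] at h5
            exact nonneg_of_mul_nonneg_right h5 hv1
  intro z z' hz hz' hd hl
  exact key _ z z' le_rfl hz hz' hd hl

end Pool.Agent.W414.GX
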